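import Pool.Agent.Helper41.FX.StK2

/-!
# Project FX, module C5M: transport to the polynomial ring in 12 variables
-/

set_option autoImplicit false

namespace Pool.Agent.Helper40.FX

open Polynomial Pool.Agent.Helper72.FX Pool.Agent.Helper41.FX

theorem tr_equiv (hRES : StRES) {A A' : Type} [CommRing A] [CommRing A'] (e : A' ≃+* A)
    (I : Ideal A) (I' : Ideal A') (h : I.comap (e : A' →+* A) = I') (Λ : Type) [AddCommGroup Λ]
    (χ : AF A' (kil I') Λ) : ∃ ψ : AF A (kil I) Λ, ∀ (J : Ideal A) (J' : Ideal A'),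
      J.comap (e : A' →+* A) = J' → I' ≤ J' → ψ.f (A ⧸ J) = χ.f (A' ⧸ J') := by
  obtain ⟨ψ, hψ⟩ := hRES A A' (e : A' →+* A) I I'
    (Ideal.map_le_iff_le_comap.2 h.ge)
    (fun a => ⟨e.symm a, by
      have : a - (e : A' →+* A) (e.symm a) = 0 := by
        rw [sub_eq_zero]
        exact (e.apply_symm_apply a).symm
      rw [this]
      exact I.zero_mem⟩) Λ χ
  refine ⟨ψ, ?_⟩
  intro J J' hJ hI
  letI : Module A' (A ⧸ J) := Module.compHom (A ⧸ J) (e : A' →+* A)
  rw [hψ (A ⧸ J) (fun a m => rfl)]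
  obtain ⟨L, hL⟩ : ∃ L : A' →ₗ[A'] (A ⧸ J), ∀ a, L a = Ideal.Quotient.mk J (e a) :=
    ⟨{ toFun := fun a => Ideal.Quotient.mk J (e a)
       map_add' := fun a b => by rw [map_add, map_add]
       map_smul' := fun a b => by
        rw [smul_eq_mul, map_mul, map_mul]
        rfl }, fun a => rfl⟩
  have hs : Function.Surjective L := by
    intro y
    obtain ⟨a, rfl⟩ := Ideal.Quotient.mk_surjective y
    exact ⟨e.symm a, by rw [hL, e.apply_symm_apply]⟩
  have hk : LinearMap.ker L = J' := by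
    ext a
    rw [LinearMap.mem_ker, hL, Ideal.Quotient.eq_zero_iff_mem, ← hJ]
    rfl
  subst hk
  exact χ.equiv (gd_kil I') (LinearMap.quotKerEquivOfSurjective L hs).symm inferInstance
    (kil_mono hI (kil_quot _))

theorem pid_bot {B : Type} [CommRing B] (E s : B) : pid ⊥ E s = Ideal.span {pel E s} := by
  unfold pid
  rw [Ideal.map_bot, bot_sup_eq]

theorem mem_upC {B : Type} [CommRing B] (J : Idl B) {b : B} (hb : b ∈ J) (p : B[X]) :
    C b * p ∈ upC J :=
  Ideal.mul_mem_right _ _ (Ideal.mem_map_of_mem _ hb)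

theorem pel_mem {B : Type} [CommRing B] (J : Idl B) {E s : B} (hE : E ∈ J) (hs : s ∈ J) :
    pel E s ∈ upC J := by
  unfold pel
  exact Ideal.sub_mem _ (mem_upC J hE _) (Ideal.mem_map_of_mem _ hs)

theorem e1_mem : e1 ∈ jP := by
  have h : ∀ x ∈ ({v10 3, v10 5, v10 0, v10 1, e2} : Set P0), x ∈ jP :=
    fun x hx => Ideal.subset_span hx
  have h3 : v10 3 ∈ jP := h _ (by simp)
  have h5 : v10 5 ∈ jP := h _ (by simp)
  have h0 : v10 0 ∈ jP := h _ (by simp)
  have h1 : v10 1 ∈ jP := h _ (by simp)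
  have e : e1 = (2 + v10 2 * v10 1) * v10 1 - v10 0 * v10 0 - v10 4 * v10 3 - v10 6 * v10 5 := by
    unfold e1 E1 nu
    ring
  rw [e]
  exact Ideal.sub_mem _ (Ideal.sub_mem _ (Ideal.sub_mem _ (Ideal.mul_mem_left _ _ h1)
    (Ideal.mul_mem_left _ _ h0)) (Ideal.mul_mem_left _ _ h3)) (Ideal.mul_mem_left _ _ h5)

theorem pel_mem_jPX : pel (C e1) (-pel e2 ss) ∈ jPX := by
  have h : ∀ x ∈ ({v10 3, v10 5, v10 0, v10 1, e2} : Set P0), x ∈ jP :=
    fun x hx => Ideal.subset_span hx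
  have h3 : v10 3 ∈ jP := h _ (by simp)
  have h5 : v10 5 ∈ jP := h _ (by simp)
  have h2 : e2 ∈ jP := h _ (by simp)
  have hs : ss ∈ jP := Ideal.sub_mem _ h5 h3
  exact pel_mem (upC jP) (Ideal.mem_map_of_mem _ e1_mem)
    (neg_mem (S := Ideal P0[X]) (pel_mem jP h2 hs))

theorem hC5M : StRES → StE12 → StC5 → StC5M := by
  intro hRES hE12 hC5
  obtain ⟨e, he⟩ := hE12
  obtain ⟨χ5, h0, h1⟩ := hC5
  have hb : Function.Bijective (e : P0[X][X] →+* MvPolynomial (Fin 12) ℂ) := e.bijective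
  have hc : (Ideal.span {FP}).comap (e : P0[X][X] →+* MvPolynomial (Fin 12) ℂ) =
      pid ⊥ (C e1) (-pel e2 ss) := by
    rw [pid_bot, ← he]
    have : Ideal.span {e (pel (C e1) (-pel e2 ss))} =
        (Ideal.span {pel (C e1) (-pel e2 ss)}).map (e : P0[X][X] →+* MvPolynomial (Fin 12) ℂ) := by
      rw [Ideal.map_span, Set.image_singleton]
      rfl
    rw [this, Ideal.comap_map_of_bijective _ hb]
  obtain ⟨ψ, hψ⟩ := tr_equiv hRES e (Ideal.span {FP}) _ hc (ZMod 2) χ5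
  refine ⟨ψ, ?_, ?_⟩
  · rw [hψ _ _ hc le_rfl]
    exact h0
  · refine ⟨Ideal.map (e : P0[X][X] →+* MvPolynomial (Fin 12) ℂ) jPX, ?_, ?_⟩
    · rw [← he]
      exact Ideal.mem_map_of_mem _ pel_mem_jPX
    · rw [hψ _ jPX (Ideal.comap_map_of_bijective _ hb) ?_]
      · exact h1
      · rw [pid_bot]
        exact (Ideal.span_singleton_le_iff_mem _).2 pel_mem_jPX

end Pool.Agent.Helper40.FX
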