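import Pool.Agent.Helper41.FX.StK2

/-!
# Project FX, module CKQ: cokernel and kernel of the multiplication by `x` on `A / J`
-/

set_option autoImplicit false

namespace Pool.Agent.Helper40.FX

open Pool.Agent.Helper72.FX Pool.Agent.Helper41.FX

theorem hCKQ : StCKQ := by
  intro A _ J x
  constructor
  · obtain ⟨q, hq⟩ : ∃ q : A →ₗ[A] (A ⧸ J), ∀ a, q a = Ideal.Quotient.mk J a :=
      ⟨J.mkQ, fun a => rfl⟩
    have hq' : ∀ a, q a = 0 ↔ a ∈ J := fun a => by rw [hq, Ideal.Quotient.eq_zero_iff_mem]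
    have hqs : Function.Surjective q := fun y => by
      obtain ⟨a, rfl⟩ := Ideal.Quotient.mk_surjective y
      exact ⟨a, hq a⟩
    obtain ⟨S, hS⟩ : ∃ S, S = LinearMap.range (LinearMap.lsmul A (A ⧸ J) x) := ⟨_, rfl⟩
    have hf : Function.Surjective (S.mkQ ∘ₗ q) :=
      (Submodule.mkQ_surjective S).comp hqs
    have hk : LinearMap.ker (S.mkQ ∘ₗ q) = J ⊔ Ideal.span {x} := by
      ext a
      rw [LinearMap.mem_ker, LinearMap.comp_apply, Submodule.mkQ_apply,
        Submodule.Quotient.mk_eq_zero, hS, Submodule.mem_sup]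
      constructor
      · rintro ⟨y, hy⟩
        obtain ⟨b, rfl⟩ := hqs y
        have h : q (a - x • b) = 0 := by
          rw [map_sub, map_smul, ← hy]
          exact sub_self _
        refine ⟨a - x • b, (hq' _).1 h, x • b, ?_, by abel⟩
        rw [smul_eq_mul]
        exact Ideal.mul_mem_right _ _ (Ideal.mem_span_singleton_self x)
      · rintro ⟨u, hu, v, hv, rfl⟩
        obtain ⟨b, rfl⟩ := Ideal.mem_span_singleton'.1 hv
        refine ⟨q b, ?_⟩
        rw [map_add, (hq' u).2 hu, zero_add, mul_comm]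
        exact (map_smul q x b).symm
    subst hS
    exact ⟨((Submodule.quotEquivOfEq _ _ hk).symm ≪≫ₗ
      LinearMap.quotKerEquivOfSurjective _ hf).symm⟩
  · intro h
    refine ⟨fun a b => ?_⟩
    have key : ∀ a : Kn x (A ⧸ J), a = 0 := by
      rintro ⟨y, hy⟩
      obtain ⟨r, rfl⟩ := Ideal.Quotient.mk_surjective y
      apply Subtype.ext
      have h1 : Ideal.Quotient.mk J (x * r) = 0 := hy
      exact Ideal.Quotient.eq_zero_iff_mem.2 (h r (Ideal.Quotient.eq_zero_iff_mem.1 h1))
    rw [key a, key b]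

end Pool.Agent.Helper40.FX
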