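import Pool.Agent.Helper72.FX.StK

/-!
# Project FX, module DEV (devissage): additive functions extend to the modules killed by a power of `E`
-/

set_option autoImplicit false

namespace Pool.Agent.Helper40.FX

open Pool.Agent.Helper72.FX

section

variable {A : Type} [CommRing A] {I : Ideal A} {E : A} {Λ : Type} [AddCommGroup Λ]

/-- image of the multiplication by `E` -/
abbrev Im (E : A) (M : Type) [AddCommGroup M] [Module A M] : Submodule A M :=
  LinearMap.range (LinearMap.lsmul A M E)

/-- the approximations of the extended function -/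
noncomputable def tau (χ : AF A (kil (I ⊔ Ideal.span {E})) Λ) :
    ℕ → (M : Type) → [AddCommGroup M] → [Module A M] → Λ
  | 0, _, _, _ => 0
  | k + 1, M, _, _ => χ.f (Ck E M) + tau χ k (Im E M)

theorem tau_sub (χ : AF A (kil (I ⊔ Ideal.span {E})) Λ) (k : ℕ) :
    ∀ (M : Type) [AddCommGroup M] [Module A M] [Subsingleton M], tau χ k M = 0 := by
  induction k with
  | zero => intro M _ _ _; rfl
  | succ k ih =>
    intro M _ _ _
    change χ.f (Ck E M) + tau χ k (Im E M) = 0
    rw [ih, AF.of_subsingleton χ (gd_kil _), add_zero]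

theorem im_pow {k : ℕ} {M : Type} [AddCommGroup M] [Module A M]
    (h : ∀ y : M, E ^ (k + 1) • y = 0) (y : Im E M) : E ^ k • y = 0 := by
  obtain ⟨y, x, rfl⟩ := y
  apply Subtype.ext
  change E ^ k • (E • x) = 0
  rw [smul_smul, ← pow_succ]
  exact h x

theorem sub_of_pow {M : Type} [AddCommGroup M] [Module A M]
    (h : ∀ y : M, E ^ 0 • y = 0) : Subsingleton M := by
  refine ⟨fun a b => ?_⟩
  have ha := h a
  have hb := h b
  rw [pow_zero, one_smul] at ha hb
  rw [ha, hb]

theorem tau_succ (χ : AF A (kil (I ⊔ Ideal.span {E})) Λ) (k : ℕ) :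
    ∀ (M : Type) [AddCommGroup M] [Module A M], (∀ y : M, E ^ k • y = 0) →
      tau χ (k + 1) M = tau χ k M := by
  induction k with
  | zero =>
    intro M _ _ h
    have := sub_of_pow h
    rw [tau_sub, tau_sub]
  | succ k ih =>
    intro M _ _ h
    change χ.f (Ck E M) + tau χ (k + 1) (Im E M) = χ.f (Ck E M) + tau χ k (Im E M)
    rw [ih _ (im_pow h)]

theorem tau_le (χ : AF A (kil (I ⊔ Ideal.span {E})) Λ) {k l : ℕ} (hkl : k ≤ l)
    (M : Type) [AddCommGroup M] [Module A M] (h : ∀ y : M, E ^ k • y = 0) :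
    tau χ l M = tau χ k M := by
  induction l, hkl using Nat.le_induction with
  | base => rfl
  | succ l hl ih =>
    rw [tau_succ χ l M, ih]
    intro y
    obtain ⟨d, rfl⟩ := Nat.exists_eq_add_of_le hl
    rw [pow_add, mul_comm, mul_smul, h, smul_zero]

theorem kil_ck {M : Type} [AddCommGroup M] [Module A M] (S : Submodule A M) (h : kil I M)
    (hS : ∀ y : M, E • y ∈ S) : kil (I ⊔ Ideal.span {E}) (M ⧸ S) := by
  refine kil_sup ((gd_kil I).surj _ _ S.mkQ (Submodule.mkQ_surjective S) h) (kil_span ?_)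
  intro y
  obtain ⟨z, rfl⟩ := Submodule.mkQ_surjective S y
  rw [← map_smul, Submodule.mkQ_apply, Submodule.Quotient.mk_eq_zero]
  exact hS z

/-- on the modules killed by `E` nothing changes -/
theorem tau_kil (χ : AF A (kil (I ⊔ Ideal.span {E})) Λ) (k : ℕ)
    (M : Type) [AddCommGroup M] [Module A M] (hf : Module.Finite A M)
    (h : kil (I ⊔ Ideal.span {E}) M) : tau χ (k + 1) M = χ.f M := by
  have hE : ∀ y : M, E • y = 0 :=
    h E (Ideal.mem_sup_right (Ideal.mem_span_singleton_self E))
  have hs : Subsingleton (Im E M) := by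
    refine ⟨fun a b => ?_⟩
    obtain ⟨a, x, rfl⟩ := a
    obtain ⟨b, y, rfl⟩ := b
    apply Subtype.ext
    change E • x = E • y
    rw [hE, hE]
  change χ.f (Ck E M) + tau χ k (Im E M) = χ.f M
  rw [tau_sub, add_zero, AF.quot χ (Im E M) hf h, AF.of_subsingleton χ (gd_kil _) (Im E M),
    zero_add]

theorem tau_exact [IsNoetherianRing A] (χ : AF A (kil (I ⊔ Ideal.span {E})) Λ) (k : ℕ) :
    ∀ (M N Q : Type) [AddCommGroup M] [Module A M] [AddCommGroup N] [Module A N]
      [AddCommGroup Q] [Module A Q] (i : M →ₗ[A] N) (p : N →ₗ[A] Q), Module.Finite A N →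
      kil I N → (∀ y : N, E ^ k • y = 0) →
      Function.Injective i → Function.Exact i p → Function.Surjective p →
      tau χ k N = tau χ k M + tau χ k Q := by
  induction k with
  | zero =>
    intro M N Q _ _ _ _ _ _ i p _ _ _ _ _ _
    change (0 : Λ) = 0 + 0
    rw [add_zero]
  | succ k ih =>
    intro M N Q _ _ _ _ _ _ i p hf hI hk hi hip hp
    have hfM : Module.Finite A M := Module.Finite.of_injective i hi
    have hIM : kil I M := (gd_kil I).inj M N i hi hI
    have hkM : ∀ y : M, E ^ (k + 1) • y = 0 := fun y =>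
      hi (by rw [map_smul, map_zero]; exact hk _)
    -- the submodule `T1`
    obtain ⟨T, hT⟩ : ∃ T : Submodule A M, T = (Im E N).comap i := ⟨_, rfl⟩
    have hIT : Im E M ≤ T := by
      rintro _ ⟨x, rfl⟩
      rw [hT, Submodule.mem_comap]
      exact ⟨i x, by simp⟩
    have hTN : ∀ x ∈ T, i x ∈ Im E N := by
      intro x hx
      rw [hT] at hx
      exact hx
    -- first exact sequence `0 → T → Im E N → Im E Q → 0`
    have e1 : tau χ k (Im E N) = tau χ k T + tau χ k (Im E Q) := by
      have hNQ : ∀ x ∈ Im E N, p x ∈ Im E Q := by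
        rintro _ ⟨x, rfl⟩
        exact ⟨p x, by simp⟩
      refine ih T (Im E N) (Im E Q) (i.restrict hTN) (p.restrict hNQ) inferInstance ?_
        (im_pow hk) ?_ ?_ ?_
      · exact (gd_kil I).inj _ _ (Im E N).subtype (Im E N).injective_subtype hI
      · intro a b hab
        apply Subtype.ext
        apply hi
        exact congrArg Subtype.val hab
      · intro y
        constructor
        · intro hy
          have h0 : p (y : N) = 0 := congrArg Subtype.val hy
          obtain ⟨x, hx⟩ := (hip (y : N)).1 h0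
          refine ⟨⟨x, ?_⟩, Subtype.ext hx⟩
          rw [hT, Submodule.mem_comap, hx]
          exact y.2
        · rintro ⟨x, rfl⟩
          apply Subtype.ext
          exact (hip (i x.1)).2 ⟨x.1, rfl⟩
      · rintro ⟨_, y, rfl⟩
        obtain ⟨z, rfl⟩ := hp y
        refine ⟨⟨E • z, z, rfl⟩, ?_⟩
        apply Subtype.ext
        change p (E • z) = E • p z
        rw [map_smul]
    -- second exact sequence `0 → M / T → N / Im → Q / Im → 0`
    have e2 : χ.f (Ck E N) = χ.f (M ⧸ T) + χ.f (Ck E Q) := by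
      have hTN : T ≤ (Im E N).comap i := hT.le
      have hNQ : Im E N ≤ (Im E Q).comap p := by
        rintro _ ⟨x, rfl⟩
        exact ⟨p x, by simp⟩
      refine χ.exact' (M ⧸ T) (Ck E N) (Ck E Q) (Submodule.mapQ T (Im E N) i hTN)
        (Submodule.mapQ (Im E N) (Im E Q) p hNQ) inferInstance (kil_ck _ hI fun y => ⟨y, rfl⟩)
        ?_ ?_ ?_
      · rw [← LinearMap.ker_eq_bot, LinearMap.ker_eq_bot']
        intro y hy
        obtain ⟨z, rfl⟩ := Submodule.mkQ_surjective T y
        rw [Submodule.mkQ_apply, Submodule.mapQ_apply, Submodule.Quotient.mk_eq_zero] at hy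
        rw [Submodule.mkQ_apply, Submodule.Quotient.mk_eq_zero, hT]
        exact hy
      · intro y
        obtain ⟨z, rfl⟩ := Submodule.mkQ_surjective (Im E N) y
        constructor
        · intro hy
          rw [Submodule.mkQ_apply, Submodule.mapQ_apply, Submodule.Quotient.mk_eq_zero] at hy
          obtain ⟨w, hw⟩ := hy
          obtain ⟨v, rfl⟩ := hp w
          have h0 : p (z - E • v) = 0 := by
            rw [map_sub, map_smul, ← hw]
            exact sub_self _
          obtain ⟨x, hx⟩ := (hip _).1 h0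
          refine ⟨Submodule.Quotient.mk x, ?_⟩
          rw [Submodule.mapQ_apply, hx, Submodule.mkQ_apply, Submodule.Quotient.eq]
          refine ⟨-v, ?_⟩
          change E • (-v) = _
          rw [smul_neg]
          abel
        · rintro ⟨x, hx⟩
          obtain ⟨x, rfl⟩ := Submodule.mkQ_surjective T x
          rw [← hx, Submodule.mkQ_apply, Submodule.mapQ_apply, Submodule.mapQ_apply,
            (hip (i x)).2 ⟨x, rfl⟩, Submodule.Quotient.mk_zero]
      · intro y
        obtain ⟨z, rfl⟩ := Submodule.mkQ_surjective (Im E Q) y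
        obtain ⟨v, rfl⟩ := hp z
        exact ⟨Submodule.Quotient.mk v, by rw [Submodule.mapQ_apply, Submodule.mkQ_apply]⟩
    -- `χ (M / T) + τ T = χ (M / Im) + τ Im`
    obtain ⟨S, hS⟩ : ∃ S : Submodule A T, S = (Im E M).comap T.subtype := ⟨_, rfl⟩
    have hkT : ∀ y : T, E ^ k • y = 0 := by
      intro y
      have hy : i (y : M) ∈ Im E N := hTN _ y.2
      have h0 := im_pow hk ⟨i y, hy⟩
      have h1 : E ^ k • i (y : M) = 0 := congrArg Subtype.val h0
      apply Subtype.ext
      apply hi
      change i (E ^ k • (y : M)) = i 0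
      rw [map_smul, h1, map_zero]
    have hIT' : kil I T := (gd_kil I).inj _ _ T.subtype T.injective_subtype hIM
    have hTS : kil (I ⊔ Ideal.span {E}) (T ⧸ S) := by
      refine kil_ck _ hIT' ?_
      intro y
      rw [hS, Submodule.mem_comap]
      exact ⟨y, rfl⟩
    have e3 : tau χ k T = tau χ k (Im E M) + tau χ k (T ⧸ S) := by
      refine ih (Im E M) T (T ⧸ S) (Submodule.inclusion hIT) S.mkQ inferInstance hIT' hkT
        (Submodule.inclusion_injective hIT) ?_ (Submodule.mkQ_surjective S)
      intro y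
      rw [Submodule.mkQ_apply, Submodule.Quotient.mk_eq_zero, hS, Submodule.mem_comap]
      constructor
      · intro hy
        exact ⟨⟨y, hy⟩, rfl⟩
      · rintro ⟨x, rfl⟩
        exact x.2
    have e4 : tau χ k (T ⧸ S) = χ.f (T ⧸ S) := by
      cases k with
      | zero =>
        have := sub_of_pow hkT
        rw [tau_sub, AF.of_subsingleton χ (gd_kil _)]
      | succ k => exact tau_kil χ k _ inferInstance hTS
    have e5 : χ.f (Ck E M) = χ.f (T ⧸ S) + χ.f (M ⧸ T) := by
      have hST : S ≤ (Im E M).comap T.subtype := hS.le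
      refine χ.exact' (T ⧸ S) (Ck E M) (M ⧸ T) (Submodule.mapQ S (Im E M) T.subtype hST)
        (Submodule.factor hIT) inferInstance (kil_ck _ hIM fun y => ⟨y, rfl⟩) ?_ ?_ ?_
      · rw [← LinearMap.ker_eq_bot, LinearMap.ker_eq_bot']
        intro y hy
        obtain ⟨z, rfl⟩ := Submodule.mkQ_surjective S y
        rw [Submodule.mkQ_apply, Submodule.mapQ_apply, Submodule.Quotient.mk_eq_zero] at hy
        rw [Submodule.mkQ_apply, Submodule.Quotient.mk_eq_zero, hS]
        exact hy
      · intro y
        obtain ⟨z, rfl⟩ := Submodule.mkQ_surjective (Im E M) y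
        constructor
        · intro hy
          have hy : z ∈ T := (Submodule.Quotient.mk_eq_zero T).1 hy
          refine ⟨Submodule.Quotient.mk ⟨z, hy⟩, ?_⟩
          rw [Submodule.mapQ_apply, Submodule.mkQ_apply]
          rfl
        · rintro ⟨x, hx⟩
          obtain ⟨x, rfl⟩ := Submodule.mkQ_surjective S x
          rw [← hx]
          exact (Submodule.Quotient.mk_eq_zero T).2 x.2
      · intro y
        obtain ⟨z, rfl⟩ := Submodule.mkQ_surjective T y
        exact ⟨Submodule.Quotient.mk z, rfl⟩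
    change χ.f (Ck E N) + tau χ k (Im E N) = (χ.f (Ck E M) + tau χ k (Im E M)) +
      (χ.f (Ck E Q) + tau χ k (Im E Q))
    rw [e1, e2, e5, e3, e4]
    abel

end

theorem hDEV : StDEV := by
  intro A _ _ I E Λ _ χ
  classical
  refine ⟨⟨fun M _ _ => if h : ∃ k : ℕ, ∀ y : M, E ^ k • y = 0 then tau χ (Nat.find h) M else 0,
    ?_⟩, ?_⟩
  · intro M N Q _ _ _ _ _ _ i p hf hN hi hip hp
    have hM : ∃ k : ℕ, ∀ y : M, E ^ k • y = 0 := ((gd_kpw I E).inj M N i hi hN).2
    have hQ : ∃ k : ℕ, ∀ y : Q, E ^ k • y = 0 := ((gd_kpw I E).surj N Q p hp hN).2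
    have hN' := hN.2
    simp only [dif_pos hM, dif_pos hQ, dif_pos hN']
    obtain ⟨k, hk⟩ : ∃ k, k = Nat.find hN' := ⟨_, rfl⟩
    have hkN := Nat.find_spec hN'
    rw [← hk] at hkN ⊢
    have hkM : ∀ y : M, E ^ k • y = 0 := fun y => hi (by rw [map_smul, map_zero]; exact hkN _)
    have hkQ : ∀ y : Q, E ^ k • y = 0 := by
      intro y
      obtain ⟨z, rfl⟩ := hp y
      rw [← map_smul, hkN, map_zero]
    rw [tau_exact χ k M N Q i p hf hN.1 hkN hi hip hp,
      tau_le χ (Nat.find_min' hM hkM) M (Nat.find_spec hM),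
      tau_le χ (Nat.find_min' hQ hkQ) Q (Nat.find_spec hQ)]
  · intro M _ _ hf hM
    have hE : ∀ y : M, E ^ 1 • y = 0 := by
      intro y
      rw [pow_one]
      exact hM E (Ideal.mem_sup_right (Ideal.mem_span_singleton_self E)) y
    have h : ∃ k : ℕ, ∀ y : M, E ^ k • y = 0 := ⟨1, hE⟩
    change (if h : ∃ k : ℕ, ∀ y : M, E ^ k • y = 0 then tau χ (Nat.find h) M else 0) = χ.f M
    rw [dif_pos h, ← tau_le χ (Nat.find_min' h hE) M (Nat.find_spec h)]
    exact tau_kil χ 0 M hf hM

end Pool.Agent.Helper40.FX
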